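import Mathlib
import Pool.Agent.Lib.MP_2cba5e_an.Core

/-!
# Joint J-strict continuity of the Jordan product of the multipliers of a JB*-algebra

`A` is a JB*-algebra with product `m` and involution `s`; its bidual carries the (first) Arens
product `P`, which is the Jordan product of the JBW*-algebra `A**`; `M(A)` is the set of `X` in
`A**` with `P X a` in `A` for all `a` in `A`.

The key is the linearised Jordan identity
`a² ∘ (x ∘ y) = (a² ∘ x) ∘ y + 2 a ∘ (x ∘ (a ∘ y)) - 2 (a ∘ x) ∘ (a ∘ y)`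
for `a` in `A` and `x`, `y` in the bidual, together with the density of the span of the squares
of `A`, which is proved from the axioms with an exponential curve (file `Core`).
-/

namespace Pool.Agent.Results.MP_2cba5e_an.JointJStrict

open Filter Topology
open Pool.Agent.Lib.MP_2cba5e_an

/-! ### Definitions used in the statement -/

/-- `m` and `s` make the complex Banach space `A` a JB*-algebra: `m` is a commutative bilinear
product satisfying the Jordan identity and `‖m a b‖ ≤ ‖a‖ ‖b‖` (so `A` is a Jordan Banach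
algebra), `s` is a conjugate-linear multiplicative involution, and `‖U_a (s a)‖ = ‖a‖ ^ 3` for
all `a`, where `U_a x = 2 m (m a x) a - m (m a a) x`. -/
structure IsJBStarAlgebra (A : Type*) [NormedAddCommGroup A] [NormedSpace ℂ A]
    (m : A → A → A) (s : A → A) : Prop where
  mul_comm : ∀ a b, m a b = m b a
  add_mul : ∀ a b c, m (a + b) c = m a c + m b c
  smul_mul : ∀ (z : ℂ) (a b : A), m (z • a) b = z • m a b
  jordan : ∀ a b, m (m a b) (m a a) = m a (m b (m a a))
  norm_mul_le : ∀ a b, ‖m a b‖ ≤ ‖a‖ * ‖b‖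
  star_star : ∀ a, s (s a) = a
  star_add : ∀ a b, s (a + b) = s a + s b
  star_smul : ∀ (z : ℂ) (a : A), s (z • a) = (starRingEnd ℂ z) • s a
  star_mul : ∀ a b, s (m a b) = m (s a) (s b)
  norm_U : ∀ a, ‖(2 : ℂ) • m (m a (s a)) a - m (m a a) (s a)‖ = ‖a‖ ^ 3

/-- `P` is the (first) Arens product on the bidual of `A` with product `m`: for all `X`, `Y` in
`A**` and `φ` in `A*`, `P X Y φ = X ψ`, where `ψ a = Y (b ↦ φ (m a b))`. -/
structure IsArensProduct {A : Type*} [NormedAddCommGroup A] [NormedSpace ℂ A] (m : A → A → A)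
    (P : StrongDual ℂ (StrongDual ℂ A) → StrongDual ℂ (StrongDual ℂ A) →
      StrongDual ℂ (StrongDual ℂ A)) : Prop where
  formula : ∀ (X Y : StrongDual ℂ (StrongDual ℂ A)) (φ : StrongDual ℂ A),
    ∃ (χ : A → StrongDual ℂ A) (ψ : StrongDual ℂ A),
      (∀ a b, χ a b = φ (m a b)) ∧ (∀ a, ψ a = Y (χ a)) ∧ P X Y φ = X ψ

/-- `X` in `A**` is a multiplier of `A`: `P X a` lies in `A` for every `a` in `A`. -/
structure IsMultiplier {A : Type*} [NormedAddCommGroup A] [NormedSpace ℂ A]
    (P : StrongDual ℂ (StrongDual ℂ A) → StrongDual ℂ (StrongDual ℂ A) →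
      StrongDual ℂ (StrongDual ℂ A)) (X : StrongDual ℂ (StrongDual ℂ A)) : Prop where
  mul_mem : ∀ a : A, ∃ c : A, P X (NormedSpace.inclusionInDoubleDual ℂ A a) =
    NormedSpace.inclusionInDoubleDual ℂ A c

/-- J-strict convergence of the family `f` to `x` along the filter `l`: `‖a ∘ (f i - x)‖ → 0` for
every `a` in `A`. -/
structure JStrictTo {A : Type*} [NormedAddCommGroup A] [NormedSpace ℂ A]
    (P : StrongDual ℂ (StrongDual ℂ A) → StrongDual ℂ (StrongDual ℂ A) →
      StrongDual ℂ (StrongDual ℂ A)) {ι : Type*} (f : ι → StrongDual ℂ (StrongDual ℂ A))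
    (l : Filter ι) (x : StrongDual ℂ (StrongDual ℂ A)) : Prop where
  tendsto : ∀ a : A,
    Tendsto (fun i => ‖P (NormedSpace.inclusionInDoubleDual ℂ A a) (f i - x)‖) l (𝓝 0)

/-- **Main theorem.** For every JB*-algebra `A`, the multiplier algebra `M(A)` is closed under the
product of the bidual, and this product is jointly J-strictly continuous on bounded sets
of `M(A)`. -/
theorem result.{u, v, w} (A : Type u) [NormedAddCommGroup A] [NormedSpace ℂ A] [CompleteSpace A]
    (m : A → A → A) (s : A → A) (h : IsJBStarAlgebra A m s) :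
    ∃ P : StrongDual ℂ (StrongDual ℂ A) → StrongDual ℂ (StrongDual ℂ A) →
        StrongDual ℂ (StrongDual ℂ A),
      IsArensProduct m P ∧
      (∀ x y, IsMultiplier P x → IsMultiplier P y → IsMultiplier P (P x y)) ∧
      ∀ {I : Type v} {K : Type w} (l : Filter I) (l' : Filter K)
        (x : I → StrongDual ℂ (StrongDual ℂ A)) (y : K → StrongDual ℂ (StrongDual ℂ A))
        (x₀ y₀ : StrongDual ℂ (StrongDual ℂ A)),
        (∀ i, IsMultiplier P (x i)) → (∀ k, IsMultiplier P (y k)) →
        IsMultiplier P x₀ → IsMultiplier P y₀ →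
        (∃ C : ℝ, ∀ i, ‖x i‖ ≤ C) → (∃ D : ℝ, ∀ k, ‖y k‖ ≤ D) →
        JStrictTo P x l x₀ → JStrictTo P y l' y₀ →
        JStrictTo P (fun p : I × K => P (x p.1) (y p.2)) (l ×ˢ l') (P x₀ y₀) := by
  let _ : JBStarAlgebra A :=
    { (inferInstance : NormedAddCommGroup A), (inferInstance : NormedSpace ℂ A),
      (inferInstance : CompleteSpace A) with
      mul := m
      star := s
      jmul_comm := h.mul_comm
      jadd_mul := h.add_mul
      jsmul_mul := h.smul_mul
      jordan_identity := h.jordan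
      jnorm_mul_le := h.norm_mul_le
      jstar_star := h.star_star
      jstar_add := h.star_add
      jstar_smul := h.star_smul
      jstar_mul := h.star_mul
      jnorm_U := h.norm_U }
  have hm : ∀ X : Bidual A, IsMultiplier (arens (A := A)) X ↔ X ∈ multipliers A := fun X =>
    ⟨fun hX a => by obtain ⟨c, hc⟩ := hX.mul_mem a; exact ⟨c, hc.symm⟩,
      fun hX => ⟨fun a => by obtain ⟨c, hc⟩ := hX a; exact ⟨c, hc.symm⟩⟩⟩
  refine ⟨arens (A := A), ⟨?_⟩, ?_, ?_⟩
  · intro X Y φ
    exact ⟨fun a => act φ a, bact Y φ, fun a b => rfl, fun a => rfl, rfl⟩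
  · intro x y hx hy
    rw [hm] at hx hy ⊢
    exact (bundled.{u, v, w} A).1 x hx y hy
  · intro I K l l' x y x₀ y₀ hx hy hx₀ hy₀ hC hD hxl hyl
    exact ⟨(bundled.{u, v, w} A).2 l l' x y x₀ y₀ (fun i => (hm _).1 (hx i))
      (fun k => (hm _).1 (hy k)) ((hm _).1 hx₀) ((hm _).1 hy₀) hC hD hxl.tendsto hyl.tendsto⟩

end Pool.Agent.Results.MP_2cba5e_an.JointJStrict
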